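import Mathlib

set_option autoImplicit false

namespace Pool.Agent.H178R2.PG

open Finset

variable {V : Type} [Fintype V] [DecidableEq V]

/-- flip the spin at `v` -/
def fl (v : V) (σ : V → Bool) : V → Bool := Function.update σ v (!σ v)

omit [Fintype V] in
lemma fl_same (v : V) (σ : V → Bool) : fl v σ v = !σ v := by simp [fl]

omit [Fintype V] in
lemma fl_ne (v : V) (σ : V → Bool) (i : V) (h : i ≠ v) : fl v σ i = σ i := by simp [fl, h]

omit [Fintype V] in
lemma fl_fl (v : V) (σ : V → Bool) : fl v (fl v σ) = σ := by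
  funext i
  by_cases h : i = v
  · subst h; simp [fl]
  · simp [fl, h]

/-- gauge transformation -/
def gg (S : V → Bool) (σ : V → Bool) : V → Bool := fun i => xor (σ i) (S i)

omit [Fintype V] [DecidableEq V] in
lemma gg_gg (S σ : V → Bool) : gg S (gg S σ) = σ := by
  funext i; simp [gg]

omit [Fintype V] in
lemma fl_gg (S : V → Bool) (v : V) (σ : V → Bool) : fl v (gg S σ) = gg S (fl v σ) := by
  funext i
  by_cases h : i = v
  · subst h; simp only [fl_same, gg]; cases σ i <;> cases S i <;> rfl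
  · simp [fl, gg, h]

/-- global spin flip -/
def nega (σ : V → Bool) : V → Bool := fun i => !σ i

omit [Fintype V] [DecidableEq V] in
lemma nega_nega (σ : V → Bool) : nega (nega σ) = σ := by
  funext i; simp [nega]

omit [Fintype V] [DecidableEq V] in
lemma gg_nega (S σ : V → Bool) : gg S (nega σ) = nega (gg S σ) := by
  funext i; simp only [gg, nega]; cases σ i <;> cases S i <;> rfl

omit [Fintype V] in
lemma fl_nega (v : V) (σ : V → Bool) : fl v (nega σ) = nega (fl v σ) := by
  funext i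
  by_cases h : i = v
  · subst h; simp [fl_same, nega]
  · simp [fl, nega, h]

lemma sum_fl (v : V) (F : (V → Bool) → ℝ) : ∑ σ, F (fl v σ) = ∑ σ, F σ :=
  Equiv.sum_comp (Function.Involutive.toPerm (fl v) (fl_fl v)) F

lemma sum_gg (S : V → Bool) (F : (V → Bool) → ℝ) : ∑ σ, F (gg S σ) = ∑ σ, F σ :=
  Equiv.sum_comp (Function.Involutive.toPerm (gg S) (gg_gg S)) F

lemma sum_nega (F : (V → Bool) → ℝ) : ∑ σ, F (nega σ) = ∑ σ, F σ :=
  Equiv.sum_comp (Function.Involutive.toPerm (nega (V := V)) nega_nega) F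

/-- heat bath conductance -/
noncomputable def MM (x y : ℝ) : ℝ := x * y / (x + y)

lemma MM_nonneg {x y : ℝ} (hx : 0 ≤ x) (hy : 0 ≤ y) : 0 ≤ MM x y := by
  unfold MM; positivity

lemma MM_smul (a x y : ℝ) : MM (a * x) (a * y) = a * MM x y := by
  unfold MM
  by_cases ha : a = 0
  · simp [ha]
  · rw [← mul_add]
    by_cases h : x + y = 0
    · simp [h]
    · field_simp

/-- superadditivity of the heat bath conductance -/
lemma MM_add {x y x' y' : ℝ} (hx : 0 ≤ x) (hy : 0 ≤ y) (hx' : 0 ≤ x') (hy' : 0 ≤ y') :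
    MM x y + MM x' y' ≤ MM (x + x') (y + y') := by
  unfold MM
  by_cases h : x + y = 0
  · have h1 : x = 0 := by linarith
    have h2 : y = 0 := by linarith
    simp [h1, h2]
  by_cases h' : x' + y' = 0
  · have h1 : x' = 0 := by linarith
    have h2 : y' = 0 := by linarith
    simp [h1, h2]
  have p : 0 < x + y := lt_of_le_of_ne (by linarith) (Ne.symm h)
  have p' : 0 < x' + y' := lt_of_le_of_ne (by linarith) (Ne.symm h')
  rw [div_add_div _ _ h h', div_le_div_iff₀ (by positivity) (by linarith)]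
  nlinarith [mul_nonneg (mul_nonneg hx hy') hx, sq_nonneg (x * y' - x' * y)]

/-- Dirichlet form (unnormalised) -/
noncomputable def NN (w f : (V → Bool) → ℝ) : ℝ :=
  ∑ σ, ∑ v, MM (w σ) (w (fl v σ)) * (f σ - f (fl v σ)) ^ 2

/-- square norm (unnormalised) -/
noncomputable def DD (w f : (V → Bool) → ℝ) : ℝ := ∑ σ, w σ * f σ ^ 2

/-- odd functions -/
def IsOdd (f : (V → Bool) → ℝ) : Prop := ∀ σ, f (nega σ) = - f σ

/-- spectral bound on odd functions -/
def OB (w : (V → Bool) → ℝ) (c : ℝ) : Prop := ∀ f, IsOdd f → c * DD w f ≤ NN w f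

lemma DD_add (w w' f : (V → Bool) → ℝ) : DD (fun σ => w σ + w' σ) f = DD w f + DD w' f := by
  unfold DD
  rw [← sum_add_distrib]
  refine sum_congr rfl fun σ _ => by ring

lemma NN_add (w w' f : (V → Bool) → ℝ) (hw : ∀ σ, 0 ≤ w σ) (hw' : ∀ σ, 0 ≤ w' σ) :
    NN w f + NN w' f ≤ NN (fun σ => w σ + w' σ) f := by
  unfold NN
  rw [← sum_add_distrib]
  refine sum_le_sum fun σ _ => ?_
  rw [← sum_add_distrib]
  refine sum_le_sum fun v _ => ?_
  rw [← add_mul]
  exact mul_le_mul_of_nonneg_right (MM_add (hw _) (hw _) (hw' _) (hw' _)) (sq_nonneg _)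

lemma OB_add {w w' : (V → Bool) → ℝ} {c : ℝ} (h : OB w c) (h' : OB w' c)
    (hw : ∀ σ, 0 ≤ w σ) (hw' : ∀ σ, 0 ≤ w' σ) : OB (fun σ => w σ + w' σ) c := by
  intro f hf
  have := NN_add w w' f hw hw'
  rw [DD_add]
  linarith [h f hf, h' f hf]

lemma OB_smul {w : (V → Bool) → ℝ} {c a : ℝ} (h : OB w c) (ha : 0 ≤ a) :
    OB (fun σ => a * w σ) c := by
  intro f hf
  have h1 : DD (fun σ => a * w σ) f = a * DD w f := by
    unfold DD; rw [mul_sum]; exact sum_congr rfl fun σ _ => by ring
  have h2 : NN (fun σ => a * w σ) f = a * NN w f := by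
    unfold NN; rw [mul_sum]
    refine sum_congr rfl fun σ _ => ?_
    rw [mul_sum]
    refine sum_congr rfl fun v _ => ?_
    simp only [MM_smul]; ring
  rw [h1, h2]
  nlinarith [h f hf]

lemma OB_gauge {w : (V → Bool) → ℝ} {c : ℝ} (h : OB w c) (S : V → Bool) :
    OB (fun σ => w (gg S σ)) c := by
  intro f hf
  have hodd : IsOdd (fun σ => f (gg S σ)) := by
    intro σ
    show f (gg S (nega σ)) = - f (gg S σ)
    rw [gg_nega]; exact hf _
  have key := h _ hodd
  have h1 : DD (fun σ => w (gg S σ)) f = DD w (fun σ => f (gg S σ)) := by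
    unfold DD
    rw [← sum_gg S (fun σ => w (gg S σ) * f σ ^ 2)]
    refine sum_congr rfl fun σ _ => ?_
    simp only [gg_gg]
  have h2 : NN (fun σ => w (gg S σ)) f = NN w (fun σ => f (gg S σ)) := by
    unfold NN
    rw [← sum_gg S (fun σ => ∑ v, MM (w (gg S σ)) (w (gg S (fl v σ))) * (f σ - f (fl v σ)) ^ 2)]
    refine sum_congr rfl fun σ _ => ?_
    refine sum_congr rfl fun v _ => ?_
    simp only [gg_gg, fl_gg]
  rw [h1, h2]; exact key

lemma OB_congr {w w' : (V → Bool) → ℝ} {c : ℝ} (h : OB w c) (e : ∀ σ, w' σ = w σ) : OB w' c := by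
  have : w' = w := funext e
  rw [this]; exact h

end Pool.Agent.H178R2.PG
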