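import Pool.Agent.H178R2.PG.Basic

set_option autoImplicit false

namespace Pool.Agent.H178R2.PG

open Finset

variable {V : Type} [Fintype V] [DecidableEq V]

/-- conditional expectation at `v` -/
noncomputable def EE (w : (V → Bool) → ℝ) (v : V) (f : (V → Bool) → ℝ) (σ : V → Bool) : ℝ :=
  (w σ * f σ + w (fl v σ) * f (fl v σ)) / (w σ + w (fl v σ))

/-- sum of conditional expectations -/
noncomputable def AA (w f : (V → Bool) → ℝ) (σ : V → Bool) : ℝ := ∑ v, EE w v f σ

/-- inner product -/
noncomputable def ip (w f g : (V → Bool) → ℝ) : ℝ := ∑ σ, w σ * f σ * g σ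

omit [Fintype V] in
lemma EE_fl (w f : (V → Bool) → ℝ) (v : V) (σ : V → Bool) : EE w v f (fl v σ) = EE w v f σ := by
  unfold EE
  rw [fl_fl, add_comm (w (fl v σ) * f (fl v σ)), add_comm (w (fl v σ))]

lemma ip_comm (w f g : (V → Bool) → ℝ) : ip w f g = ip w g f := by
  unfold ip; exact sum_congr rfl fun σ _ => by ring

lemma ip_add_right (w f g h : (V → Bool) → ℝ) :
    ip w f (fun σ => g σ + h σ) = ip w f g + ip w f h := by
  unfold ip; rw [← sum_add_distrib]; exact sum_congr rfl fun σ _ => by ring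

lemma ip_smul_right (w f g : (V → Bool) → ℝ) (a : ℝ) :
    ip w f (fun σ => a * g σ) = a * ip w f g := by
  unfold ip; rw [mul_sum]; exact sum_congr rfl fun σ _ => by ring

lemma ip_EE (w f g : (V → Bool) → ℝ) (hw : ∀ σ, 0 < w σ) (v : V) :
    ip w (EE w v f) g = (1 / 2) * ∑ σ, (w σ * f σ + w (fl v σ) * f (fl v σ)) *
      (w σ * g σ + w (fl v σ) * g (fl v σ)) / (w σ + w (fl v σ)) := by
  have h1 : ip w (EE w v f) g = ∑ σ, w (fl v σ) * EE w v f (fl v σ) * g (fl v σ) :=
    (sum_fl v (fun σ => w σ * EE w v f σ * g σ)).symm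
  have h2 : 2 * ip w (EE w v f) g = ∑ σ, (w σ * f σ + w (fl v σ) * f (fl v σ)) *
      (w σ * g σ + w (fl v σ) * g (fl v σ)) / (w σ + w (fl v σ)) := by
    rw [two_mul]
    nth_rewrite 2 [h1]
    unfold ip
    rw [← sum_add_distrib]
    refine sum_congr rfl fun σ _ => ?_
    rw [EE_fl]
    unfold EE
    have : w σ + w (fl v σ) ≠ 0 := ne_of_gt (add_pos (hw _) (hw _))
    field_simp
  linarith

lemma ip_EE_symm (w f g : (V → Bool) → ℝ) (hw : ∀ σ, 0 < w σ) (v : V) :
    ip w (EE w v f) g = ip w f (EE w v g) := by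
  rw [ip_comm w f, ip_EE w f g hw, ip_EE w g f hw]
  congr 1
  exact sum_congr rfl fun σ _ => by rw [mul_comm (w σ * f σ + w (fl v σ) * f (fl v σ))]

lemma ip_EE_nonneg (w f : (V → Bool) → ℝ) (hw : ∀ σ, 0 < w σ) (v : V) :
    0 ≤ ip w (EE w v f) f := by
  rw [ip_EE w f f hw]
  refine mul_nonneg (by norm_num) (sum_nonneg fun σ _ => ?_)
  exact div_nonneg (mul_self_nonneg _) (add_pos (hw _) (hw _)).le

lemma ip_AA (w f g : (V → Bool) → ℝ) : ip w (AA w f) g = ∑ v, ip w (EE w v f) g := by
  unfold ip AA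
  rw [sum_comm]
  refine sum_congr rfl fun σ _ => ?_
  rw [mul_sum, sum_mul]

lemma ip_AA_symm (w f g : (V → Bool) → ℝ) (hw : ∀ σ, 0 < w σ) :
    ip w (AA w f) g = ip w f (AA w g) := by
  rw [ip_AA, ip_comm w f, ip_AA]
  refine sum_congr rfl fun v _ => ?_
  rw [ip_EE_symm w f g hw, ip_comm]

lemma ip_AA_nonneg (w f : (V → Bool) → ℝ) (hw : ∀ σ, 0 < w σ) : 0 ≤ ip w (AA w f) f := by
  rw [ip_AA]; exact sum_nonneg fun v _ => ip_EE_nonneg w f hw v

lemma DD_eq_ip (w f : (V → Bool) → ℝ) : DD w f = ip w f f := by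
  unfold DD ip; exact sum_congr rfl fun σ _ => by ring

lemma NN_eq (w f : (V → Bool) → ℝ) (hw : ∀ σ, 0 < w σ) :
    NN w f = 2 * (Fintype.card V : ℝ) * DD w f - 2 * ip w (AA w f) f := by
  have h1 : ∀ v : V, ∑ σ, MM (w σ) (w (fl v σ)) * (f σ - f (fl v σ)) ^ 2
      = 2 * DD w f - 2 * ip w (EE w v f) f := by
    intro v
    have e : DD w f = ∑ σ, w (fl v σ) * f (fl v σ) ^ 2 :=
      (sum_fl v (fun σ => w σ * f σ ^ 2)).symm
    have e2 : 2 * DD w f = ∑ σ, (w σ * f σ ^ 2 + w (fl v σ) * f (fl v σ) ^ 2) := by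
      rw [sum_add_distrib, ← e]; unfold DD; ring
    rw [e2, ip_EE w f f hw, ← mul_assoc, show (2 : ℝ) * (1 / 2) = 1 by norm_num, one_mul,
      ← sum_sub_distrib]
    refine sum_congr rfl fun σ _ => ?_
    unfold MM
    have : w σ + w (fl v σ) ≠ 0 := ne_of_gt (add_pos (hw _) (hw _))
    field_simp
    ring
  unfold NN
  rw [sum_comm, sum_congr rfl fun v _ => h1 v, sum_sub_distrib, ip_AA, mul_sum]
  simp only [sum_const, card_univ, nsmul_eq_mul]
  ring

/-- Cauchy-Schwarz for the inner product -/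
lemma ip_cs (w f g : (V → Bool) → ℝ) (hw : ∀ σ, 0 < w σ) :
    ip w f g ^ 2 ≤ ip w f f * ip w g g := by
  have := sum_mul_sq_le_sq_mul_sq univ (fun σ => Real.sqrt (w σ) * f σ)
    (fun σ => Real.sqrt (w σ) * g σ)
  have e1 : ∀ σ, Real.sqrt (w σ) * Real.sqrt (w σ) = w σ := fun σ =>
    Real.mul_self_sqrt (hw σ).le
  have a1 : ∑ σ, (Real.sqrt (w σ) * f σ) * (Real.sqrt (w σ) * g σ) = ip w f g := by
    unfold ip; refine sum_congr rfl fun σ _ => ?_
    calc _ = (Real.sqrt (w σ) * Real.sqrt (w σ)) * f σ * g σ := by ring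
      _ = _ := by rw [e1]
  have a2 : ∀ h : (V → Bool) → ℝ, ∑ σ, (Real.sqrt (w σ) * h σ) ^ 2 = ip w h h := by
    intro h; unfold ip; refine sum_congr rfl fun σ _ => ?_
    calc _ = (Real.sqrt (w σ) * Real.sqrt (w σ)) * h σ * h σ := by ring
      _ = _ := by rw [e1]
  rw [a1, a2, a2] at this
  exact this

lemma ip_self_nonneg (w f : (V → Bool) → ℝ) (hw : ∀ σ, 0 < w σ) : 0 ≤ ip w f f := by
  unfold ip
  refine sum_nonneg fun σ _ => ?_
  have := mul_nonneg (hw σ).le (mul_self_nonneg (f σ))
  nlinarith [this]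

/-- Cauchy-Schwarz for the positive semidefinite form `ip (AA f) g` -/
lemma ip_AA_cs (w f g : (V → Bool) → ℝ) (hw : ∀ σ, 0 < w σ) :
    ip w (AA w f) g ^ 2 ≤ ip w (AA w f) f * ip w (AA w g) g := by
  have hlin : ∀ t : ℝ, AA w (fun σ => f σ + t * g σ) = fun σ => AA w f σ + t * AA w g σ := by
    intro t; funext σ
    unfold AA EE
    rw [mul_sum, ← sum_add_distrib]
    refine sum_congr rfl fun v _ => ?_
    ring
  have key : ∀ t : ℝ, 0 ≤ ip w (AA w g) g * (t * t) + (2 * ip w (AA w f) g) * t
      + ip w (AA w f) f := by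
    intro t
    have h := ip_AA_nonneg w (fun σ => f σ + t * g σ) hw
    rw [hlin t] at h
    rw [ip_add_right, ip_smul_right, ip_comm w _ f, ip_comm w _ g, ip_add_right, ip_add_right,
      ip_smul_right, ip_smul_right, ip_comm w f (AA w f), ip_comm w g (AA w g),
      ip_comm w f (AA w g), ip_comm w g (AA w f), ip_AA_symm w g f hw, ip_comm w g (AA w f)] at h
    nlinarith [h]
  have := discrim_le_zero key
  unfold discrim at this
  nlinarith [this]

/-! ### monotonicity -/

omit [Fintype V] in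
lemma EE_eq (w f : (V → Bool) → ℝ) (v : V) (σ : V → Bool) :
    EE w v f σ = (w (Function.update σ v true) * f (Function.update σ v true)
      + w (Function.update σ v false) * f (Function.update σ v false)) /
      (w (Function.update σ v true) + w (Function.update σ v false)) := by
  unfold EE fl
  cases h : σ v
  · have : Function.update σ v false = σ := by rw [← h]; simp
    rw [this]
    simp only [Bool.not_false]
    rw [add_comm (w σ * f σ), add_comm (w σ)]
  · have : Function.update σ v true = σ := by rw [← h]; simp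
    rw [this]
    simp only [Bool.not_true]

omit [Fintype V] in
lemma EE_mono (w f : (V → Bool) → ℝ) (hw : ∀ σ, 0 < w σ)
    (hlat : ∀ a b, w a * w b ≤ w (a ⊓ b) * w (a ⊔ b)) (hf : Monotone f) (v : V) :
    Monotone (EE w v f) := by
  intro σ τ hst
  rw [EE_eq, EE_eq]
  have f1 : f (Function.update σ v true) ≤ f (Function.update τ v true) := by
    apply hf
    intro i
    by_cases h : i = v
    · subst h; simp
    · simp [h, hst i]
  have f0 : f (Function.update σ v false) ≤ f (Function.update τ v false) := by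
    apply hf
    intro i
    by_cases h : i = v
    · subst h; simp
    · simp [h, hst i]
  have f2 : f (Function.update σ v false) ≤ f (Function.update σ v true) := by
    apply hf
    intro i
    by_cases h : i = v
    · subst h; simp
    · simp [h]
  have hl := hlat (Function.update σ v true) (Function.update τ v false)
  have e1 : Function.update σ v true ⊓ Function.update τ v false = Function.update σ v false := by
    funext i
    by_cases h : i = v
    · subst h; simp
    · simp only [Pi.inf_apply, Function.update_of_ne h]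
      exact inf_eq_left.mpr (hst i)
  have e2 : Function.update σ v true ⊔ Function.update τ v false = Function.update τ v true := by
    funext i
    by_cases h : i = v
    · subst h; simp
    · simp only [Pi.sup_apply, Function.update_of_ne h]
      exact sup_eq_right.mpr (hst i)
  rw [e1, e2] at hl
  set a := w (Function.update σ v true)
  set b := w (Function.update σ v false)
  set a' := w (Function.update τ v true)
  set b' := w (Function.update τ v false)
  set g1 := f (Function.update σ v true)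
  set g0 := f (Function.update σ v false)
  set k1 := f (Function.update τ v true)
  set k0 := f (Function.update τ v false)
  have ha : 0 < a := hw _
  have hb : 0 < b := hw _
  have ha' : 0 < a' := hw _
  have hb' : 0 < b' := hw _
  rw [div_le_div_iff₀ (by positivity) (by positivity)]
  have s1 : (a' * g1 + b' * g0) * (a + b) ≤ (a' * k1 + b' * k0) * (a + b) := by
    apply mul_le_mul_of_nonneg_right _ (by positivity)
    nlinarith
  nlinarith [mul_nonneg (sub_nonneg.mpr hl) (sub_nonneg.mpr f2)]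

lemma AA_mono (w f : (V → Bool) → ℝ) (hw : ∀ σ, 0 < w σ)
    (hlat : ∀ a b, w a * w b ≤ w (a ⊓ b) * w (a ⊔ b)) (hf : Monotone f) :
    Monotone (AA w f) := by
  intro σ τ h
  exact sum_le_sum fun v _ => EE_mono w f hw hlat hf v h

/-- total mass of `w f` -/
noncomputable def tot (w f : (V → Bool) → ℝ) : ℝ := ∑ σ, w σ * f σ

lemma tot_EE (w f : (V → Bool) → ℝ) (hw : ∀ σ, 0 < w σ) (v : V) :
    tot w (EE w v f) = tot w f := by
  have h1 : tot w (EE w v f) = ip w (EE w v f) (fun _ => 1) := by
    unfold tot ip; simp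
  have h2 : EE w v (fun _ => (1 : ℝ)) = fun _ => 1 := by
    funext σ
    unfold EE
    rw [mul_one, mul_one]
    exact div_self (ne_of_gt (add_pos (hw _) (hw _)))
  rw [h1, ip_EE_symm w f _ hw, h2]
  unfold tot ip; simp

lemma tot_AA (w f : (V → Bool) → ℝ) (hw : ∀ σ, 0 < w σ) :
    tot w (AA w f) = (Fintype.card V : ℝ) * tot w f := by
  have : tot w (AA w f) = ∑ v, tot w (EE w v f) := by
    unfold tot AA
    rw [sum_comm]
    exact sum_congr rfl fun σ _ => by rw [mul_sum]
  rw [this, sum_congr rfl fun v _ => tot_EE w f hw v]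
  simp

/-- FKG -/
lemma fkg' (w u g : (V → Bool) → ℝ) (hw : ∀ σ, 0 < w σ)
    (hlat : ∀ a b, w a * w b ≤ w (a ⊓ b) * w (a ⊔ b)) (hu : Monotone u) (hg : Monotone g) :
    tot w u * tot w g ≤ (∑ σ, w σ) * ip w u g := by
  classical
  -- constants making the functions nonnegative
  obtain ⟨K, hK⟩ : ∃ K : ℝ, ∀ σ, 0 ≤ u σ + K := by
    refine ⟨-u (fun _ => false), fun σ => ?_⟩
    have := hu (show (fun _ => false : V → Bool) ≤ σ from fun i => Bool.false_le _)
    linarith
  obtain ⟨L, hL⟩ : ∃ L : ℝ, ∀ σ, 0 ≤ g σ + L := by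
    refine ⟨-g (fun _ => false), fun σ => ?_⟩
    have := hg (show (fun _ => false : V → Bool) ≤ σ from fun i => Bool.false_le _)
    linarith
  have := fkg (μ := w) (f := fun σ => u σ + K) (g := fun σ => g σ + L)
    (fun σ => (hw σ).le) hK hL (fun a b h => by have := hu h; simpa using this)
    (fun a b h => by have := hg h; simpa using this) hlat
  have e1 : ∑ a, w a * (u a + K) = tot w u + K * ∑ σ, w σ := by
    unfold tot; rw [mul_sum, ← sum_add_distrib]; exact sum_congr rfl fun σ _ => by ring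
  have e2 : ∑ a, w a * (g a + L) = tot w g + L * ∑ σ, w σ := by
    unfold tot; rw [mul_sum, ← sum_add_distrib]; exact sum_congr rfl fun σ _ => by ring
  have e3 : ∑ a, w a * ((u a + K) * (g a + L)) = ip w u g + L * tot w u + K * tot w g
      + K * L * ∑ σ, w σ := by
    unfold tot ip; rw [mul_sum, mul_sum, mul_sum, ← sum_add_distrib, ← sum_add_distrib,
      ← sum_add_distrib]
    exact sum_congr rfl fun σ _ => by ring
  rw [e1, e2, e3] at this
  nlinarith [this]

end Pool.Agent.H178R2.PG
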