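import Pool.Agent.H178R2.PG.Ising

set_option autoImplicit false

namespace Pool.Agent.H178R2.PG

open Finset

variable {V : Type} [Fintype V] [DecidableEq V]

/-- variance under `μ` -/
noncomputable def vr (μ f : (V → Bool) → ℝ) : ℝ := ∑ σ, μ σ * (f σ - ∑ τ, μ τ * f τ) ^ 2

/-- heat bath Dirichlet form under `μ` -/
noncomputable def dr (μ f : (V → Bool) → ℝ) : ℝ :=
  (1 / (2 * (Fintype.card V : ℝ))) *
    ∑ σ, ∑ v, μ σ * μ (Function.update σ v (!σ v)) /
      (μ σ + μ (Function.update σ v (!σ v))) * (f σ - f (Function.update σ v (!σ v))) ^ 2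

/-- spectral gap -/
noncomputable def gp (μ : (V → Bool) → ℝ) : ℝ :=
  sInf {r : ℝ | ∃ f : (V → Bool) → ℝ, 0 < vr μ f ∧ r = dr μ f / vr μ f}

/-- normalised weight -/
noncomputable def nm (w : (V → Bool) → ℝ) (σ : V → Bool) : ℝ := w σ / ∑ τ, w τ

lemma nm_sum (w : (V → Bool) → ℝ) (hw : ∀ σ, 0 < w σ) : ∑ σ, nm w σ = 1 := by
  unfold nm
  rw [← sum_div]
  exact div_self (sum_pos (fun σ _ => hw σ) univ_nonempty).ne'

lemma vr_eq (w f : (V → Bool) → ℝ) :
    vr (nm w) f = DD w (fun σ => f σ - ∑ τ, nm w τ * f τ) / ∑ τ, w τ := by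
  unfold vr DD
  rw [sum_div]
  refine sum_congr rfl fun σ _ => ?_
  unfold nm; ring

lemma tot_center (w f : (V → Bool) → ℝ) (hw : ∀ σ, 0 < w σ) :
    tot w (fun σ => f σ - ∑ τ, nm w τ * f τ) = 0 := by
  have hZ : (0 : ℝ) < ∑ τ, w τ := sum_pos (fun σ _ => hw σ) univ_nonempty
  unfold tot
  have h1 : ∑ τ, nm w τ * f τ = (∑ τ, w τ * f τ) / ∑ τ, w τ := by
    rw [sum_div]; exact sum_congr rfl fun τ _ => by unfold nm; ring
  rw [h1]
  simp only [mul_sub, sum_sub_distrib, ← sum_mul]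
  field_simp
  ring

lemma NN_center (w f : (V → Bool) → ℝ) (m : ℝ) : NN w (fun σ => f σ - m) = NN w f := by
  unfold NN
  refine sum_congr rfl fun σ _ => sum_congr rfl fun v _ => ?_
  ring

lemma dr_eq (w f : (V → Bool) → ℝ) :
    dr (nm w) f = (1 / (2 * (Fintype.card V : ℝ))) * (NN w f / ∑ τ, w τ) := by
  unfold dr NN
  rw [sum_div]
  congr 1
  refine sum_congr rfl fun σ _ => ?_
  rw [sum_div]
  refine sum_congr rfl fun v _ => ?_
  have h := MM_smul ((∑ τ, w τ)⁻¹) (w σ) (w (fl v σ))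
  unfold MM at h
  have e : ∀ σ, nm w σ = (∑ τ, w τ)⁻¹ * w σ := fun σ => by unfold nm; ring
  change nm w σ * nm w (fl v σ) / (nm w σ + nm w (fl v σ)) * (f σ - f (fl v σ)) ^ 2 = _
  rw [e, e, h]
  unfold MM
  ring

lemma NN_nonneg (w f : (V → Bool) → ℝ) (hw : ∀ σ, 0 < w σ) : 0 ≤ NN w f :=
  sum_nonneg fun _ _ => sum_nonneg fun _ _ =>
    mul_nonneg (MM_nonneg (hw _).le (hw _).le) (sq_nonneg _)

lemma DD_nonneg (w f : (V → Bool) → ℝ) (hw : ∀ σ, 0 < w σ) : 0 ≤ DD w f :=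
  sum_nonneg fun _ _ => mul_nonneg (hw _).le (sq_nonneg _)

lemma odd_mean (w f : (V → Bool) → ℝ) (he : ∀ σ, w (nega σ) = w σ) (hf : IsOdd f) :
    ∑ τ, nm w τ * f τ = 0 := by
  have h1 : ∑ τ, nm w τ * f τ = ∑ τ, nm w (nega τ) * f (nega τ) :=
    (sum_nega (fun σ => nm w σ * f σ)).symm
  have h2 : ∑ τ, nm w τ * f τ = - ∑ τ, nm w τ * f τ := by
    nth_rewrite 1 [h1]
    rw [← sum_neg_distrib]
    exact sum_congr rfl fun σ _ => by unfold nm; rw [he, hf]; ring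
  linarith

/-- The spectral gap of an attractive, spin-flip symmetric heat bath dynamics is determined by
odd functions. -/
theorem le_gp_iff [Nonempty V] (w : (V → Bool) → ℝ) (hw : ∀ σ, 0 < w σ)
    (he : ∀ σ, w (nega σ) = w σ)
    (hlat : ∀ a b, w a * w b ≤ w (a ⊓ b) * w (a ⊔ b)) (c : ℝ) :
    c ≤ gp (nm w) ↔ OB w (2 * (Fintype.card V : ℝ) * c) := by
  have hZ : (0 : ℝ) < ∑ τ, w τ := sum_pos (fun σ _ => hw σ) univ_nonempty
  have hn : (0 : ℝ) < Fintype.card V := by exact_mod_cast Fintype.card_pos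
  constructor
  · intro h f hf
    have hm := odd_mean w f he hf
    have hv : vr (nm w) f = DD w f / ∑ τ, w τ := by
      rw [vr_eq, hm]; simp
    rcases eq_or_lt_of_le (DD_nonneg w f hw) with h0 | h0
    · rw [← h0, mul_zero]; exact NN_nonneg w f hw
    · have hvp : 0 < vr (nm w) f := by rw [hv]; positivity
      have h1 : gp (nm w) ≤ dr (nm w) f / vr (nm w) f := by
        refine csInf_le ⟨0, ?_⟩ ⟨f, hvp, rfl⟩
        rintro r ⟨g, hg, rfl⟩
        refine div_nonneg ?_ hg.le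
        rw [dr_eq]
        have := NN_nonneg w g hw
        positivity
      have h2 := h.trans h1
      rw [le_div_iff₀ hvp, dr_eq, hv] at h2
      have h3 : c * (DD w f / ∑ τ, w τ) * (2 * (Fintype.card V : ℝ) * ∑ τ, w τ) ≤
          (1 / (2 * (Fintype.card V : ℝ))) * (NN w f / ∑ τ, w τ) *
            (2 * (Fintype.card V : ℝ) * ∑ τ, w τ) :=
        mul_le_mul_of_nonneg_right h2 (by positivity)
      have e1 : c * (DD w f / ∑ τ, w τ) * (2 * (Fintype.card V : ℝ) * ∑ τ, w τ) =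
          2 * (Fintype.card V : ℝ) * c * DD w f := by field_simp
      have e2 : (1 / (2 * (Fintype.card V : ℝ))) * (NN w f / ∑ τ, w τ) *
            (2 * (Fintype.card V : ℝ) * ∑ τ, w τ) = NN w f := by field_simp
      rw [e1, e2] at h3
      exact h3
  · intro h
    unfold gp
    refine le_csInf ?_ ?_
    · refine ⟨_, mag, ?_, rfl⟩
      have hv : vr (nm w) (mag (V := V)) = DD w mag / ∑ τ, w τ := by
        rw [vr_eq, odd_mean w mag he mag_odd]; simp
      rw [hv]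
      refine div_pos ?_ hZ
      refine sum_pos' (fun σ _ => mul_nonneg (hw σ).le (sq_nonneg _))
        ⟨fun _ => true, mem_univ _, ?_⟩
      have h1 : (0 : ℝ) < mag (V := V) (fun _ => true) := by
        unfold mag sp; simp [Fintype.card_pos]
      have := hw (fun _ => true)
      positivity
    · rintro r ⟨f, hf, rfl⟩
      rw [le_div_iff₀ hf, dr_eq, vr_eq]
      have h1 := full_of_odd w hw he hlat _ h _ (tot_center w f hw)
      rw [NN_center] at h1
      have h2 : 2 * (Fintype.card V : ℝ) * c * DD w (fun σ => f σ - ∑ τ, nm w τ * f τ) *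
          (1 / (2 * (Fintype.card V : ℝ) * ∑ τ, w τ)) ≤
          NN w f * (1 / (2 * (Fintype.card V : ℝ) * ∑ τ, w τ)) :=
        mul_le_mul_of_nonneg_right h1 (by positivity)
      have e1 : 2 * (Fintype.card V : ℝ) * c * DD w (fun σ => f σ - ∑ τ, nm w τ * f τ) *
          (1 / (2 * (Fintype.card V : ℝ) * ∑ τ, w τ)) =
          c * (DD w (fun σ => f σ - ∑ τ, nm w τ * f τ) / ∑ τ, w τ) := by field_simp
      have e2 : NN w f * (1 / (2 * (Fintype.card V : ℝ) * ∑ τ, w τ)) =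
          (1 / (2 * (Fintype.card V : ℝ))) * (NN w f / ∑ τ, w τ) := by field_simp
      rw [e1, e2] at h2
      exact h2

lemma vr_nonneg (w f : (V → Bool) → ℝ) (hw : ∀ σ, 0 < w σ) : 0 ≤ vr (nm w) f := by
  rw [vr_eq]
  exact div_nonneg (DD_nonneg w _ hw) (sum_nonneg fun σ _ => (hw σ).le)

lemma dr_nonneg (w f : (V → Bool) → ℝ) (hw : ∀ σ, 0 < w σ) : 0 ≤ dr (nm w) f := by
  rw [dr_eq]
  have h1 := NN_nonneg w f hw
  have h2 : 0 ≤ ∑ τ, w τ := sum_nonneg fun σ _ => (hw σ).le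
  positivity

lemma forall_of_le_gp (w : (V → Bool) → ℝ) (hw : ∀ σ, 0 < w σ) (c : ℝ) (h : c ≤ gp (nm w))
    (f : (V → Bool) → ℝ) : c * vr (nm w) f ≤ dr (nm w) f := by
  rcases eq_or_lt_of_le (vr_nonneg w f hw) with h0 | h0
  · rw [← h0, mul_zero]; exact dr_nonneg w f hw
  · rw [← le_div_iff₀ h0]
    refine h.trans (csInf_le ⟨0, ?_⟩ ⟨f, h0, rfl⟩)
    rintro r ⟨g, hg, rfl⟩
    exact div_nonneg (dr_nonneg w g hw) hg.le

lemma le_gp_of_forall [Nonempty V] (w : (V → Bool) → ℝ) (hw : ∀ σ, 0 < w σ)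
    (he : ∀ σ, w (nega σ) = w σ) (c : ℝ)
    (h : ∀ f, c * vr (nm w) f ≤ dr (nm w) f) : c ≤ gp (nm w) := by
  have hZ : (0 : ℝ) < ∑ τ, w τ := sum_pos (fun σ _ => hw σ) univ_nonempty
  refine le_csInf ?_ ?_
  · refine ⟨_, mag, ?_, rfl⟩
    have hv : vr (nm w) (mag (V := V)) = DD w mag / ∑ τ, w τ := by
      rw [vr_eq, odd_mean w mag he mag_odd]; simp
    rw [hv]
    refine div_pos ?_ hZ
    refine sum_pos' (fun σ _ => mul_nonneg (hw σ).le (sq_nonneg _))
      ⟨fun _ => true, mem_univ _, ?_⟩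
    have h1 : (0 : ℝ) < mag (V := V) (fun _ => true) := by
      unfold mag sp; simp [Fintype.card_pos]
    have := hw (fun _ => true)
    positivity
  · rintro r ⟨f, hf, rfl⟩
    rw [le_div_iff₀ hf]
    exact h f

/-- For ferromagnetic Ising weights. -/
theorem le_gp_W_iff [Nonempty V] (J : V → V → ℝ) (h0 : ∀ i j, 0 ≤ J i j) (c : ℝ) :
    c ≤ gp (nm (W J)) ↔ OB (W J) (2 * (Fintype.card V : ℝ) * c) :=
  le_gp_iff (W J) (W_pos J) (W_nega J) (W_lat J h0) c

/-- Monotonicity of the gap in the couplings of bridges. -/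
theorem gp_bridges (J J' : V → V → ℝ) (hJ : ∀ i j, J i j = J j i) (hJ' : ∀ i j, J' i j = J' j i)
    (h0 : ∀ i j, 0 ≤ J i j) (hle : ∀ i j, J i j ≤ J' i j)
    (hb : ∀ i j, J i j ≠ J' i j → ∃ B : Set V, i ∈ B ∧ j ∉ B ∧
      ∀ u ∈ B, ∀ v ∉ B, (u, v) ≠ (i, j) → J' u v = 0) :
    gp (nm (W J')) ≤ gp (nm (W J)) := by
  by_cases hV : Nonempty V
  · have h0' : ∀ i j, 0 ≤ J' i j := fun i j => (h0 i j).trans (hle i j)
    exact (le_gp_W_iff J h0 _).2 (OB_bridges J J' hJ hJ' h0 hle hb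
      ((le_gp_W_iff J' h0' _).1 le_rfl))
  · have : J = J' := by funext i; exact absurd ⟨i⟩ hV
    rw [this]

/-- Unimodality of the gap in each coupling. -/
theorem gp_unimodal (J : V → V → ℝ) (h0 : ∀ i j, 0 ≤ J i j) {a b : V} (hab : a ≠ b)
    {x y z : ℝ} (hx : 0 ≤ x) (hxy : x ≤ y) (hyz : y ≤ z) :
    min (gp (nm (W (upd J a b x)))) (gp (nm (W (upd J a b z)))) ≤ gp (nm (W (upd J a b y))) := by
  haveI : Nonempty V := ⟨a⟩
  have hu : ∀ t : ℝ, 0 ≤ t → ∀ i j, 0 ≤ upd J a b t i j := by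
    intro t ht i j; unfold upd; split_ifs; exacts [ht, h0 i j]
  have hx1 := (le_gp_W_iff _ (hu x hx) _).1
    (min_le_left (gp (nm (W (upd J a b x)))) (gp (nm (W (upd J a b z)))))
  have hz1 := (le_gp_W_iff _ (hu z (hx.trans (hxy.trans hyz))) _).1
    (min_le_right (gp (nm (W (upd J a b x)))) (gp (nm (W (upd J a b z)))))
  exact (le_gp_W_iff _ (hu y (hx.trans hxy)) _).2 (OB_quasi J hab hxy hyz hx1 hz1)

end Pool.Agent.H178R2.PG
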