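import Pool.Agent.H178R2.PG.OddFull

set_option autoImplicit false

namespace Pool.Agent.H178R2.PG

open Finset

variable {V : Type} [Fintype V] [DecidableEq V]

/-- unnormalised Ising weight -/
noncomputable def W (J : V → V → ℝ) (σ : V → Bool) : ℝ :=
  Real.exp ((∑ i, ∑ j, J i j * sp (σ i) * sp (σ j)) / 2)

omit [DecidableEq V] in
lemma W_pos (J : V → V → ℝ) (σ : V → Bool) : 0 < W J σ := Real.exp_pos _

omit [DecidableEq V] in
lemma W_nega (J : V → V → ℝ) (σ : V → Bool) : W J (nega σ) = W J σ := by
  unfold W nega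
  congr 2
  refine sum_congr rfl fun i _ => sum_congr rfl fun j _ => ?_
  rw [sp_not, sp_not]; ring

lemma sp_lat (a b a' b' : Bool) :
    sp a * sp b + sp a' * sp b' ≤ sp (a ⊓ a') * sp (b ⊓ b') + sp (a ⊔ a') * sp (b ⊔ b') := by
  cases a <;> cases b <;> cases a' <;> cases b' <;> norm_num [sp]

omit [DecidableEq V] in
lemma W_lat (J : V → V → ℝ) (hJ : ∀ i j, 0 ≤ J i j) (σ τ : V → Bool) :
    W J σ * W J τ ≤ W J (σ ⊓ τ) * W J (σ ⊔ τ) := by
  unfold W
  rw [← Real.exp_add, ← Real.exp_add]
  apply Real.exp_le_exp.mpr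
  rw [← add_div, ← add_div, ← sum_add_distrib, ← sum_add_distrib]
  apply div_le_div_of_nonneg_right _ (by norm_num : (0 : ℝ) ≤ 2)
  refine sum_le_sum fun i _ => ?_
  rw [← sum_add_distrib, ← sum_add_distrib]
  refine sum_le_sum fun j _ => ?_
  have := mul_le_mul_of_nonneg_left (sp_lat (σ i) (σ j) (τ i) (τ j)) (hJ i j)
  simp only [Pi.inf_apply, Pi.sup_apply]
  linarith

/-- change the coupling of the pair `a, b` -/
def upd (J : V → V → ℝ) (a b : V) (x : ℝ) : V → V → ℝ := fun i j =>
  if (i = a ∧ j = b) ∨ (i = b ∧ j = a) then x else J i j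

lemma W_upd (J : V → V → ℝ) {a b : V} (hab : a ≠ b) (x : ℝ) (σ : V → Bool) :
    W (upd J a b x) σ = W (upd J a b 0) σ * Real.exp (x * (sp (σ a) * sp (σ b))) := by
  unfold W
  rw [← Real.exp_add]
  congr 1
  have h1 : ∀ i j, upd J a b x i j * sp (σ i) * sp (σ j) =
      upd J a b 0 i j * sp (σ i) * sp (σ j) +
      ((if i = a then (if j = b then x * (sp (σ a) * sp (σ b)) else 0) else 0) +
      (if i = b then (if j = a then x * (sp (σ a) * sp (σ b)) else 0) else 0)) := by
    intro i j
    unfold upd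
    by_cases h1 : i = a
    · subst h1
      by_cases h2 : j = b
      · subst h2; simp [hab]; ring
      · simp [h2, hab]
    · by_cases h3 : i = b
      · subst h3
        by_cases h4 : j = a
        · subst h4; simp [h1]; ring
        · simp [h1, h4]
      · simp [h1, h3]
  have h2 : ∑ i, ∑ j, upd J a b x i j * sp (σ i) * sp (σ j) =
      ∑ i, ∑ j, upd J a b 0 i j * sp (σ i) * sp (σ j) + 2 * (x * (sp (σ a) * sp (σ b))) := by
    rw [sum_congr rfl fun i _ => sum_congr rfl fun j _ => h1 i j]
    simp only [sum_add_distrib]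
    have e1 : ∑ i, ∑ j, (if i = a then (if j = b then x * (sp (σ a) * sp (σ b)) else 0) else 0)
        = x * (sp (σ a) * sp (σ b)) := by
      rw [sum_eq_single a]
      · simp
      · intro i _ hi; simp [hi]
      · intro h; exact absurd (mem_univ a) h
    have e2 : ∑ i, ∑ j, (if i = b then (if j = a then x * (sp (σ a) * sp (σ b)) else 0) else 0)
        = x * (sp (σ a) * sp (σ b)) := by
      rw [sum_eq_single b]
      · simp
      · intro i _ hi; simp [hi]
      · intro h; exact absurd (mem_univ b) h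
    rw [e1, e2]; ring
  rw [h2]; ring

lemma three_point {x y z : ℝ} (hxy : x ≤ y) (hyz : y ≤ z) :
    ∃ α β : ℝ, 0 ≤ α ∧ 0 ≤ β ∧ ∀ s : ℝ, (s = 1 ∨ s = -1) →
      Real.exp (y * s) = α * Real.exp (x * s) + β * Real.exp (z * s) := by
  rcases eq_or_lt_of_le (hxy.trans hyz) with h | h
  · refine ⟨1, 0, by norm_num, le_refl _, fun s _ => ?_⟩
    have : y = x := by linarith
    rw [this]; ring
  · have hpos : 0 < Real.sinh (z - x) := Real.sinh_pos_iff.mpr (by linarith)
    refine ⟨Real.sinh (z - y) / Real.sinh (z - x), Real.sinh (y - x) / Real.sinh (z - x),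
      div_nonneg (Real.sinh_nonneg_iff.mpr (by linarith)) hpos.le,
      div_nonneg (Real.sinh_nonneg_iff.mpr (by linarith)) hpos.le, ?_⟩
    intro s hs
    rw [div_mul_eq_mul_div, div_mul_eq_mul_div, ← add_div, eq_div_iff hpos.ne']
    rcases hs with hs | hs
    · subst hs
      simp only [mul_one, Real.sinh_eq]
      have e1 : Real.exp y * ((Real.exp (z - x) - Real.exp (-(z - x))) / 2) =
          (Real.exp (y + z - x) - Real.exp (y + x - z)) / 2 := by
        rw [mul_div_assoc', mul_sub, ← Real.exp_add, ← Real.exp_add]; ring_nf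
      have e2 : (Real.exp (z - y) - Real.exp (-(z - y))) / 2 * Real.exp x =
          (Real.exp (z - y + x) - Real.exp (y - z + x)) / 2 := by
        rw [div_mul_eq_mul_div, sub_mul, ← Real.exp_add, ← Real.exp_add]; ring_nf
      have e3 : (Real.exp (y - x) - Real.exp (-(y - x))) / 2 * Real.exp z =
          (Real.exp (y - x + z) - Real.exp (x - y + z)) / 2 := by
        rw [div_mul_eq_mul_div, sub_mul, ← Real.exp_add, ← Real.exp_add]; ring_nf
      rw [e1, e2, e3]; ring_nf
    · subst hs
      simp only [mul_neg, mul_one, Real.sinh_eq]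
      have e1 : Real.exp (-y) * ((Real.exp (z - x) - Real.exp (-(z - x))) / 2) =
          (Real.exp (-y + z - x) - Real.exp (-y + x - z)) / 2 := by
        rw [mul_div_assoc', mul_sub, ← Real.exp_add, ← Real.exp_add]; ring_nf
      have e2 : (Real.exp (z - y) - Real.exp (-(z - y))) / 2 * Real.exp (-x) =
          (Real.exp (z - y - x) - Real.exp (y - z - x)) / 2 := by
        rw [div_mul_eq_mul_div, sub_mul, ← Real.exp_add, ← Real.exp_add]; ring_nf
      have e3 : (Real.exp (y - x) - Real.exp (-(y - x))) / 2 * Real.exp (-z) =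
          (Real.exp (y - x - z) - Real.exp (x - y - z)) / 2 := by
        rw [div_mul_eq_mul_div, sub_mul, ← Real.exp_add, ← Real.exp_add]; ring_nf
      rw [e1, e2, e3]; ring_nf

/-- **Quasi-concavity in each coupling** on odd functions (any real couplings). -/
theorem OB_quasi (J : V → V → ℝ) {a b : V} (hab : a ≠ b) {x y z c : ℝ} (hxy : x ≤ y) (hyz : y ≤ z)
    (hx : OB (W (upd J a b x)) c) (hz : OB (W (upd J a b z)) c) : OB (W (upd J a b y)) c := by
  obtain ⟨α, β, hα, hβ, key⟩ := three_point hxy hyz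
  refine OB_congr (OB_add (OB_smul hx hα) (OB_smul hz hβ)
    (fun σ => mul_nonneg hα (W_pos _ _).le) (fun σ => mul_nonneg hβ (W_pos _ _).le)) ?_
  intro σ
  rw [W_upd J hab y, W_upd J hab x, W_upd J hab z]
  have hs : sp (σ a) * sp (σ b) = 1 ∨ sp (σ a) * sp (σ b) = -1 := by
    cases σ a <;> cases σ b <;> norm_num [sp]
  rw [key _ hs]; ring

/-- flipping one side of a bridge -/
theorem OB_bridge (J : V → V → ℝ) (hJ : ∀ i j, J i j = J j i) {a b : V} {z c : ℝ}
    (B : Set V) (ha : a ∈ B) (hb : b ∉ B)
    (hB : ∀ u ∈ B, ∀ v ∉ B, (u, v) ≠ (a, b) → J u v = 0)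
    (hz : OB (W (upd J a b z)) c) : OB (W (upd J a b (-z))) c := by
  classical
  refine OB_congr (OB_gauge hz (fun i => decide (i ∈ B))) ?_
  intro σ
  unfold W
  congr 2
  have hsp : ∀ i, sp (gg (fun i => decide (i ∈ B)) σ i) = (if i ∈ B then -1 else 1) * sp (σ i) := by
    intro i
    unfold gg
    by_cases h : i ∈ B
    · simp only [h, decide_true, if_true]; cases σ i <;> norm_num [sp]
    · simp only [h, decide_false, if_false]; cases σ i <;> norm_num [sp]
  refine sum_congr rfl fun i _ => sum_congr rfl fun j _ => ?_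
  rw [hsp, hsp]
  unfold upd
  by_cases hi : i ∈ B
  · by_cases hj : j ∈ B
    · have h1 : ¬ ((i = a ∧ j = b) ∨ (i = b ∧ j = a)) := by
        rintro (⟨_, h⟩ | ⟨h, _⟩)
        · exact hb (h ▸ hj)
        · exact hb (h ▸ hi)
      simp only [h1, if_false, hi, hj, if_true]; ring
    · by_cases h : i = a ∧ j = b
      · simp only [h, true_and, if_true, true_or, and_self]
        simp only [ha, hb, if_true, if_false]; ring
      · have h1 : ¬ ((i = a ∧ j = b) ∨ (i = b ∧ j = a)) := by
          rintro (h' | ⟨h', _⟩)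
          · exact h h'
          · exact hb (h' ▸ hi)
        have h2 : J i j = 0 := hB i hi j hj (fun e => h (Prod.mk.inj e))
        simp only [h1, if_false, h2]; ring
  · by_cases hj : j ∈ B
    · by_cases h : j = a ∧ i = b
      · simp only [h, and_self, or_true, if_true]
        simp only [ha, hb, if_true, if_false]; ring
      · have h1 : ¬ ((i = a ∧ j = b) ∨ (i = b ∧ j = a)) := by
          rintro (⟨h', _⟩ | ⟨h', h''⟩)
          · exact hi (h' ▸ ha)
          · exact h ⟨h'', h'⟩
        have h2 : J i j = 0 := by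
          rw [hJ]; exact hB j hj i hi (fun e => h (Prod.mk.inj e))
        simp only [h1, if_false, h2]; ring
    · have h1 : ¬ ((i = a ∧ j = b) ∨ (i = b ∧ j = a)) := by
        rintro (⟨h, _⟩ | ⟨_, h⟩)
        · exact hi (h ▸ ha)
        · exact hj (h ▸ ha)
      simp only [h1, if_false, hi, hj]; ring

lemma upd_self (J : V → V → ℝ) (hJ : ∀ i j, J i j = J j i) (a b : V) :
    upd J a b (J a b) = J := by
  funext i j
  unfold upd
  split_ifs with h
  · rcases h with ⟨h1, h2⟩ | ⟨h1, h2⟩
    · rw [h1, h2]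
    · rw [h1, h2, hJ]
  · rfl

/-- **Monotonicity in the couplings of bridges** on odd functions. -/
theorem OB_bridges (J J' : V → V → ℝ) (hJ : ∀ i j, J i j = J j i) (hJ' : ∀ i j, J' i j = J' j i)
    (h0 : ∀ i j, 0 ≤ J i j) (hle : ∀ i j, J i j ≤ J' i j)
    (hb : ∀ i j, J i j ≠ J' i j → ∃ B : Set V, i ∈ B ∧ j ∉ B ∧
      ∀ u ∈ B, ∀ v ∉ B, (u, v) ≠ (i, j) → J' u v = 0)
    {c : ℝ} (h : OB (W J') c) : OB (W J) c := by
  classical
  set mix : Finset (V × V) → V → V → ℝ := fun S i j =>
    if (i, j) ∈ S ∨ (j, i) ∈ S then J i j else J' i j with hmix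
  have hsymm : ∀ S i j, mix S i j = mix S j i := by
    intro S i j
    simp only [hmix]
    rw [hJ i j, hJ' i j]
    by_cases h1 : (i, j) ∈ S ∨ (j, i) ∈ S
    · rw [if_pos h1, if_pos h1.symm]
    · rw [if_neg h1, if_neg (fun h => h1 h.symm)]
  have key : ∀ S : Finset (V × V), OB (W (mix S)) c := by
    intro S
    induction S using Finset.induction_on with
    | empty =>
      have : mix ∅ = J' := by funext i j; simp [hmix]
      rw [this]; exact h
    | insert p S _ ih =>
      obtain ⟨a, b⟩ := p
      have e1 : mix (insert (a, b) S) = upd (mix S) a b (J a b) := by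
        funext i j
        simp only [hmix, upd, mem_insert, Prod.mk.injEq]
        by_cases h1 : (i = a ∧ j = b)
        · simp [h1]
        · by_cases h2 : (i = b ∧ j = a)
          · simp [h2, hJ b a]
          · have h2' : ¬ (j = a ∧ i = b) := fun h => h2 ⟨h.2, h.1⟩
            simp [h1, h2, h2']
      rw [e1]
      by_cases hz : mix S a b = J a b
      · rw [← hz, upd_self _ (hsymm S)]; exact ih
      · have hz' : mix S a b = J' a b := by
          simp only [hmix] at hz ⊢
          by_cases h1 : (a, b) ∈ S ∨ (b, a) ∈ S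
          · rw [if_pos h1] at hz; exact absurd rfl hz
          · rw [if_neg h1]
        have hne : J a b ≠ J' a b := fun e => hz (hz'.trans e.symm)
        obtain ⟨B, haB, hbB, hB⟩ := hb a b hne
        have hab : a ≠ b := fun e => hbB (e ▸ haB)
        have hB' : ∀ u ∈ B, ∀ v ∉ B, (u, v) ≠ (a, b) → mix S u v = 0 := by
          intro u hu v hv huv
          have h1 := hB u hu v hv huv
          simp only [hmix]
          split_ifs
          · exact le_antisymm (h1 ▸ hle u v) (h0 u v)
          · exact h1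
        have h1 : OB (W (upd (mix S) a b (J' a b))) c := by
          rw [← hz', upd_self _ (hsymm S)]; exact ih
        have h2 := OB_bridge (mix S) (hsymm S) B haB hbB hB' h1
        exact OB_quasi (mix S) hab (by linarith [h0 a b, hle a b]) (hle a b) h2 h1
  have e2 : mix univ = J := by funext i j; simp [hmix]
  rw [← e2]; exact key univ

end Pool.Agent.H178R2.PG
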