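import Pool.Agent.H178R2.PG.Gap

set_option autoImplicit false

/-! Comparison of exchangeable attractive heat bath dynamics. -/

namespace Pool.Agent.H178R2.PG

open Finset

variable {V : Type} [Fintype V] [DecidableEq V]

lemma AA_smul (w f : (V → Bool) → ℝ) (a : ℝ) :
    AA w (fun σ => a * f σ) = fun σ => a * AA w f σ := by
  funext σ
  unfold AA EE
  rw [mul_sum]
  exact sum_congr rfl fun v _ => by ring

lemma it_smul (w f : (V → Bool) → ℝ) (a : ℝ) (m : ℕ) :
    (AA w)^[m] (fun σ => a * f σ) = fun σ => a * (AA w)^[m] f σ := by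
  induction m with
  | zero => rfl
  | succ m ih => rw [Function.iterate_succ_apply', ih, AA_smul, Function.iterate_succ_apply']

/-- Powers of the sum of the conditional expectations on odd functions. -/
lemma it_bound [Nonempty V] (w : (V → Bool) → ℝ) (hw : ∀ σ, 0 < w σ)
    (he : ∀ σ, w (nega σ) = w σ) (c : ℝ) (h : OB w c) :
    0 ≤ (Fintype.card V : ℝ) - c / 2 ∧ ∀ f, IsOdd f → ∀ m : ℕ,
      ip w ((AA w)^[m] f) ((AA w)^[m] f) ≤
        (((Fintype.card V : ℝ) - c / 2) ^ 2) ^ m * ip w f f := by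
  classical
  set θ : ℝ := (Fintype.card V : ℝ) - c / 2 with hθ
  have hodd : ∀ f, IsOdd f → ip w (AA w f) f ≤ θ * ip w f f := by
    intro f hf
    have := h f hf
    rw [NN_eq w f hw, DD_eq_ip] at this
    rw [hθ]; linarith
  have hθ0 : 0 ≤ θ := by
    have h1 := hodd _ (mag_odd (V := V))
    have h2 := ip_AA_nonneg w (mag (V := V)) hw
    have h3 : 0 < ip w (mag (V := V)) mag := by
      unfold ip
      refine sum_pos' (fun σ _ => ?_) ⟨fun _ => true, mem_univ _, ?_⟩
      · have := mul_nonneg (hw σ).le (mul_self_nonneg (mag σ)); linarith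
      · have : (0 : ℝ) < mag (V := V) (fun _ => true) := by
          unfold mag sp; simp [Fintype.card_pos]
        have := hw (fun _ => true)
        positivity
    by_contra hneg
    push Not at hneg
    nlinarith
  have hnorm : ∀ f, IsOdd f → ip w (AA w f) (AA w f) ≤ θ ^ 2 * ip w f f := by
    intro f hf
    have h1 := ip_AA_cs w f (AA w f) hw
    have h2 := hodd f hf
    have h3 := hodd _ (AA_odd w f he hf)
    have h4 := ip_self_nonneg w (AA w f) hw
    have h5 := ip_self_nonneg w f hw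
    have h6 := ip_AA_nonneg w f hw
    have h7 := ip_AA_nonneg w (AA w f) hw
    have h8 : ip w (AA w f) f * ip w (AA w (AA w f)) (AA w f)
        ≤ (θ * ip w f f) * (θ * ip w (AA w f) (AA w f)) :=
      mul_le_mul h2 h3 h7 (by positivity)
    rcases eq_or_lt_of_le h4 with h0 | h0
    · rw [← h0]; positivity
    · have h9 : ip w (AA w f) (AA w f) * ip w (AA w f) (AA w f)
          ≤ (θ ^ 2 * ip w f f) * ip w (AA w f) (AA w f) := by nlinarith
      exact le_of_mul_le_mul_right h9 h0
  refine ⟨hθ0, fun f hf m => ?_⟩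
  induction m with
  | zero => simp
  | succ m ih =>
    rw [Function.iterate_succ_apply']
    have h1 := hnorm _ (it_odd w f he hf m)
    calc _ ≤ θ ^ 2 * ip w ((AA w)^[m] f) ((AA w)^[m] f) := h1
      _ ≤ θ ^ 2 * ((θ ^ 2) ^ m * ip w f f) := mul_le_mul_of_nonneg_left ih (sq_nonneg _)
      _ = _ := by ring

/-- The growth of the magnetization determines the spectral bound. -/
theorem OB_of_mag [Nonempty V] (w : (V → Bool) → ℝ) (hw : ∀ σ, 0 < w σ)
    (he : ∀ σ, w (nega σ) = w σ)
    (hlat : ∀ a b, w a * w b ≤ w (a ⊓ b) * w (a ⊔ b)) (c K : ℝ)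
    (hθ0 : 0 ≤ (Fintype.card V : ℝ) - c / 2)
    (hK : ∀ m : ℕ, ip w ((AA w)^[m] mag) ((AA w)^[m] mag) ≤
      K * (((Fintype.card V : ℝ) - c / 2) ^ 2) ^ m) : OB w c := by
  classical
  intro g hgo
  have hg : tot w g = 0 := by
    have h1 : tot w g = ∑ σ, w (nega σ) * g (nega σ) :=
      (sum_nega (fun σ => w σ * g σ)).symm
    have h2 : tot w g = - tot w g := by
      nth_rewrite 1 [h1]
      unfold tot
      rw [← sum_neg_distrib]
      exact sum_congr rfl fun σ _ => by rw [he, hgo]; ring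
    linarith
  set θ : ℝ := (Fintype.card V : ℝ) - c / 2 with hθ
  suffices H : ip w (AA w g) g ≤ θ * ip w g g by
    rw [NN_eq w g hw, DD_eq_ip]
    rw [hθ] at H; linarith
  set G : ℝ := ∑ σ, |g σ| with hG
  have hGb : ∀ σ, |g σ| ≤ G := fun σ =>
    single_le_sum (f := fun σ => |g σ|) (fun τ _ => abs_nonneg _) (mem_univ σ)
  have hG0 : 0 ≤ G := sum_nonneg fun _ _ => abs_nonneg _
  set φ : (V → Bool) → ℝ := fun σ => G * mag σ with hφ
  have hφodd : IsOdd φ := by
    intro σ; simp only [hφ]; rw [mag_odd]; ring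
  have hφt : tot w φ = 0 := by
    have h1 : tot w φ = ∑ σ, w (nega σ) * φ (nega σ) :=
      (sum_nega (fun σ => w σ * φ σ)).symm
    have h2 : tot w φ = - tot w φ := by
      nth_rewrite 1 [h1]
      unfold tot
      rw [← sum_neg_distrib]
      exact sum_congr rfl fun σ _ => by rw [he, hφodd]; ring
    linarith
  have hm1 : Monotone (φ + g) := by
    intro σ τ hst
    by_cases hne : σ = τ
    · subst hne; exact le_refl _
    · have h1 := mag_gap hst hne
      have h2 := abs_le.mp (hGb σ)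
      have h3 := abs_le.mp (hGb τ)
      simp only [Pi.add_apply, hφ]
      nlinarith [mul_nonneg hG0 (sub_nonneg.mpr h1)]
  have hm2 : Monotone (φ - g) := by
    intro σ τ hst
    by_cases hne : σ = τ
    · subst hne; exact le_refl _
    · have h1 := mag_gap hst hne
      have h2 := abs_le.mp (hGb σ)
      have h3 := abs_le.mp (hGb τ)
      simp only [Pi.sub_apply, hφ]
      nlinarith [mul_nonneg hG0 (sub_nonneg.mpr h1)]
  have ht1 : tot w (φ + g) = 0 := by
    have : tot w (φ + g) = tot w φ + tot w g := by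
      unfold tot; rw [← sum_add_distrib]
      exact sum_congr rfl fun σ _ => by simp only [Pi.add_apply]; ring
    rw [this, hφt, hg, add_zero]
  have hZ : 0 < ∑ σ, w σ := sum_pos (fun σ _ => hw σ) univ_nonempty
  have hdom : ∀ m : ℕ, ip w ((AA w)^[m] g) ((AA w)^[m] g) ≤
      ip w ((AA w)^[m] φ) ((AA w)^[m] φ) := by
    intro m
    have h1 := fkg' w _ _ hw hlat (it_mono w _ hw hlat hm1 m) (it_mono w _ hw hlat hm2 m)
    rw [it_tot w _ hw ht1 m, zero_mul, it_add, it_sub, ip_add_sub] at h1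
    have := (mul_nonneg_iff_of_pos_left hZ).mp h1
    linarith
  have hφit : ∀ m : ℕ, ip w ((AA w)^[m] φ) ((AA w)^[m] φ) ≤ (θ ^ 2) ^ m * (G ^ 2 * K) := by
    intro m
    have e1 : (AA w)^[m] φ = fun σ => G * (AA w)^[m] mag σ := it_smul w mag G m
    have e2 : ip w ((AA w)^[m] φ) ((AA w)^[m] φ) =
        G ^ 2 * ip w ((AA w)^[m] mag) ((AA w)^[m] mag) := by
      rw [e1]; unfold ip; rw [mul_sum]
      exact sum_congr rfl fun σ _ => by ring
    rw [e2]
    calc _ ≤ G ^ 2 * (K * (θ ^ 2) ^ m) := mul_le_mul_of_nonneg_left (hK m) (sq_nonneg _)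
      _ = _ := by ring
  -- the doubling argument
  have hy0 := ip_self_nonneg w g hw
  rcases eq_or_lt_of_le hy0 with hy | hy
  · have h1 := ip_cs w (AA w g) g hw
    rw [← hy, mul_zero] at h1
    have h2 : ip w (AA w g) g = 0 := by nlinarith [sq_nonneg (ip w (AA w g) g)]
    rw [h2, ← hy]; simp
  have hdbl : ∀ k : ℕ, (ip w ((AA w)^[k] g) ((AA w)^[k] g)) ^ 2 ≤
      ip w g g * ip w ((AA w)^[2 * k] g) ((AA w)^[2 * k] g) := by
    intro k
    have h1 : ip w ((AA w)^[k] g) ((AA w)^[k] g) = ip w g ((AA w)^[2 * k] g) := by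
      rw [it_symm w g _ hw k, ← Function.iterate_add_apply, two_mul]
    rw [h1]
    exact ip_cs w _ _ hw
  set y := ip w g g with hydef
  have hz : ∀ j : ℕ, (ip w (AA w g) (AA w g) / y) ^ (2 ^ j) ≤
      ip w ((AA w)^[2 ^ j] g) ((AA w)^[2 ^ j] g) / y := by
    intro j
    induction j with
    | zero => simp
    | succ j ih =>
      have h1 : (ip w (AA w g) (AA w g) / y) ^ (2 ^ (j + 1)) =
          ((ip w (AA w g) (AA w g) / y) ^ (2 ^ j)) ^ 2 := by
        rw [← pow_mul, pow_succ]
      rw [h1]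
      have h0 : 0 ≤ ip w (AA w g) (AA w g) / y :=
        div_nonneg (ip_self_nonneg w _ hw) hy.le
      calc _ ≤ (ip w ((AA w)^[2 ^ j] g) ((AA w)^[2 ^ j] g) / y) ^ 2 :=
            pow_le_pow_left₀ (pow_nonneg h0 _) ih 2
        _ ≤ _ := by
            rw [div_pow, div_le_div_iff₀ (by positivity) hy]
            have := hdbl (2 ^ j)
            rw [← pow_succ'] at this
            nlinarith
  have hfin : ip w (AA w g) (AA w g) / y ≤ θ ^ 2 := by
    by_contra hcon
    push Not at hcon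
    set z := ip w (AA w g) (AA w g) / y
    set B := (G ^ 2 * K) / y
    have hb : ∀ j : ℕ, z ^ (2 ^ j) ≤ B * (θ ^ 2) ^ (2 ^ j) := by
      intro j
      calc _ ≤ ip w ((AA w)^[2 ^ j] g) ((AA w)^[2 ^ j] g) / y := hz j
        _ ≤ ((θ ^ 2) ^ (2 ^ j) * (G ^ 2 * K)) / y :=
            div_le_div_of_nonneg_right ((hdom _).trans (hφit _)) hy.le
        _ = _ := by simp only [B]; ring
    have hz0 : 0 < z := lt_of_le_of_lt (sq_nonneg θ) hcon
    rcases eq_or_lt_of_le (sq_nonneg θ) with h0 | h0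
    · have := hb 0
      rw [← h0] at this
      simp at this
      linarith
    · have hq : 1 < z / θ ^ 2 := by rwa [one_lt_div h0]
      obtain ⟨j, hj⟩ := pow_unbounded_of_one_lt B hq
      have h1 : (z / θ ^ 2) ^ j ≤ (z / θ ^ 2) ^ (2 ^ j) :=
        pow_le_pow_right₀ hq.le (Nat.lt_two_pow_self).le
      have h2 : (z / θ ^ 2) ^ (2 ^ j) ≤ B := by
        rw [div_pow, div_le_iff₀ (by positivity)]
        exact hb j
      linarith
  have hA : ip w (AA w g) (AA w g) ≤ θ ^ 2 * y := by
    rwa [div_le_iff₀ hy] at hfin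
  have h1 := ip_cs w (AA w g) g hw
  by_contra hcon
  push Not at hcon
  have h2 : 0 ≤ θ * y := by positivity
  have h3 : (θ * y) ^ 2 < (ip w (AA w g) g) ^ 2 := by
    apply pow_lt_pow_left₀ hcon h2 (by norm_num)
  nlinarith

/-! ### Exchangeable weights -/

/-- functions of the magnetization -/
def SF (g : (V → Bool) → ℝ) : Prop := ∀ σ τ, mag σ = mag τ → g σ = g τ

lemma mag_fl (v : V) (σ : V → Bool) : mag (fl v σ) = mag σ - 2 * sp (σ v) := by
  unfold mag
  have h1 : ∀ u, sp (fl v σ u) = sp (σ u) - (if u = v then 2 * sp (σ v) else 0) := by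
    intro u
    by_cases h : u = v
    · subst h; rw [fl_same, sp_not, if_pos rfl]; ring
    · rw [fl_ne v σ u h, if_neg h]; ring
  rw [sum_congr rfl fun u _ => h1 u, sum_sub_distrib]
  simp

omit [DecidableEq V] in
lemma mag_int (σ : V → Bool) : ∃ k : ℤ, mag σ = k := by
  refine ⟨∑ v, if σ v then 1 else -1, ?_⟩
  unfold mag
  push_cast
  refine sum_congr rfl fun v _ => ?_
  unfold sp
  split_ifs <;> simp

omit [DecidableEq V] in
lemma mag_nega (σ : V → Bool) : mag (nega σ) = - mag σ := mag_odd σ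

lemma SF_AA (w g : (V → Bool) → ℝ) (hw : SF w) (hg : SF g) : SF (AA w g) := by
  classical
  intro σ τ hst
  obtain ⟨ω, hω⟩ := (Function.factorsThrough_iff (f := mag (V := V)) w).1
    (fun a b h => hw a b h)
  obtain ⟨γ, hγ⟩ := (Function.factorsThrough_iff (f := mag (V := V)) g).1
    (fun a b h => hg a b h)
  have key : ∀ σ : V → Bool, AA w g σ =
      ((Fintype.card V : ℝ) + mag σ) / 2 *
        ((ω (mag σ) * γ (mag σ) + ω (mag σ - 2) * γ (mag σ - 2)) /
          (ω (mag σ) + ω (mag σ - 2))) +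
      ((Fintype.card V : ℝ) - mag σ) / 2 *
        ((ω (mag σ) * γ (mag σ) + ω (mag σ + 2) * γ (mag σ + 2)) /
          (ω (mag σ) + ω (mag σ + 2))) := by
    intro σ
    set P := (ω (mag σ) * γ (mag σ) + ω (mag σ - 2) * γ (mag σ - 2)) /
          (ω (mag σ) + ω (mag σ - 2)) with hP
    set Q := (ω (mag σ) * γ (mag σ) + ω (mag σ + 2) * γ (mag σ + 2)) /
          (ω (mag σ) + ω (mag σ + 2)) with hQ
    have h1 : ∀ v, EE w v g σ = (1 + sp (σ v)) / 2 * P + (1 - sp (σ v)) / 2 * Q := by
      intro v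
      unfold EE
      rw [hω, hγ]
      simp only [Function.comp_apply]
      rw [mag_fl]
      cases h : σ v
      · have e : mag σ - 2 * sp false = mag σ + 2 := by simp [sp]
        rw [e, hQ]
        simp [sp]
      · have e : mag σ - 2 * sp true = mag σ - 2 := by simp [sp]
        rw [e, hP]
        simp [sp]
    unfold AA
    rw [sum_congr rfl fun v _ => h1 v]
    rw [sum_add_distrib, ← sum_mul, ← sum_mul, ← sum_div, ← sum_div, sum_add_distrib,
      sum_sub_distrib]
    simp only [sum_const, card_univ, nsmul_eq_mul, mul_one]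
    rfl
  rw [key σ, key τ, hst]

lemma SF_it (w g : (V → Bool) → ℝ) (hw : SF w) (hg : SF g) (m : ℕ) : SF ((AA w)^[m] g) := by
  induction m with
  | zero => exact hg
  | succ m ih => rw [Function.iterate_succ_apply']; exact SF_AA w _ hw ih

omit [DecidableEq V] in
lemma SF_mag : SF (mag (V := V)) := fun _ _ h => h

/-- a single update: comparison -/
lemma EE_cmp (w w' g g' : (V → Bool) → ℝ) (hw : ∀ σ, 0 < w σ) (hw' : ∀ σ, 0 < w' σ)
    (he : ∀ σ, w (nega σ) = w σ) (he' : ∀ σ, w' (nega σ) = w' σ)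
    (sw : SF w) (sw' : SF w') (sg : SF g) (sg' : SF g') (og : IsOdd g) (og' : IsOdd g')
    (hr : ∀ (v : V) (σ : V → Bool), σ v = true → 1 ≤ mag σ →
      w σ * w' (fl v σ) ≤ w' σ * w (fl v σ))
    (hmono : Monotone g')
    (hgg : ∀ σ, 0 ≤ mag σ → 0 ≤ g σ ∧ g σ ≤ g' σ) (v : V) (σ : V → Bool) (hσ : 0 < mag σ) :
    0 ≤ EE w v g σ ∧ EE w v g σ ≤ EE w' v g' σ := by
  -- general inequality for an upper point `a` and a lower point `b`
  have core : ∀ a b : V → Bool, w a * w' b ≤ w' a * w b → g' b ≤ g' a → 0 ≤ mag a → 0 ≤ mag b →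
      0 ≤ (w a * g a + w b * g b) / (w a + w b) ∧
      (w a * g a + w b * g b) / (w a + w b) ≤ (w' a * g' a + w' b * g' b) / (w' a + w' b) := by
    intro a b h1 h2 ha hb
    have wa := hw a
    have wb := hw b
    have wa' := hw' a
    have wb' := hw' b
    obtain ⟨ga, ga'⟩ := hgg a ha
    obtain ⟨gb, gb'⟩ := hgg b hb
    refine ⟨by positivity, ?_⟩
    calc (w a * g a + w b * g b) / (w a + w b)
        ≤ (w a * g' a + w b * g' b) / (w a + w b) := by
          apply div_le_div_of_nonneg_right _ (by positivity)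
          nlinarith [mul_le_mul_of_nonneg_left ga' wa.le, mul_le_mul_of_nonneg_left gb' wb.le]
      _ ≤ (w' a * g' a + w' b * g' b) / (w' a + w' b) := by
          rw [div_le_div_iff₀ (by positivity) (by positivity)]
          nlinarith [mul_nonneg (sub_nonneg.mpr h1) (sub_nonneg.mpr h2)]
  cases h : σ v
  · -- the flipped point is the upper one
    have hm : mag (fl v σ) = mag σ + 2 := by rw [mag_fl, h]; simp [sp]
    have hup : fl v σ v = true := by rw [fl_same, h]; rfl
    have h1 := hr v (fl v σ) hup (by rw [hm]; linarith)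
    rw [fl_fl] at h1
    have hle : σ ≤ fl v σ := by
      intro i
      by_cases hi : i = v
      · subst hi; rw [h]; exact Bool.false_le _
      · rw [fl_ne v σ i hi]
    have := core (fl v σ) σ h1 (hmono hle) (by rw [hm]; linarith) hσ.le
    unfold EE
    rw [add_comm (w σ * g σ), add_comm (w σ) (w (fl v σ)), add_comm (w' σ * g' σ),
      add_comm (w' σ) (w' (fl v σ))]
    exact this
  · have hm : mag (fl v σ) = mag σ - 2 := by rw [mag_fl, h]; simp [sp]
    obtain ⟨k, hk⟩ := mag_int σ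
    have hk0 : 0 < k := by
      rw [hk] at hσ
      exact_mod_cast hσ
    rcases (by omega : k = 1 ∨ 2 ≤ k) with h1 | h1
    · -- both averages vanish
      have hm1 : mag σ = 1 := by rw [hk, h1]; simp
      have hz : ∀ u f : (V → Bool) → ℝ, (∀ σ, u (nega σ) = u σ) → SF u → SF f → IsOdd f →
          EE u v f σ = 0 := by
        intro u f hu su sf of
        have e1 : mag (nega (fl v σ)) = mag σ := by rw [mag_nega, hm, hm1]; ring
        have e2 : u (fl v σ) = u σ := by rw [← hu (fl v σ)]; exact su _ _ e1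
        have e3 : f (fl v σ) = - f σ := by
          have h5 := of (fl v σ)
          rw [sf _ _ e1] at h5
          linarith
        unfold EE
        rw [e2, e3]
        have : u σ * f σ + u σ * -f σ = 0 := by ring
        rw [this, zero_div]
      rw [hz w g he sw sg og, hz w' g' he' sw' sg' og']
      exact ⟨le_refl _, le_refl _⟩
    · have hm2 : 2 ≤ mag σ := by
        rw [hk]; exact_mod_cast h1
      have h1 := hr v σ h (by linarith)
      have hle : fl v σ ≤ σ := by
        intro i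
        by_cases hi : i = v
        · subst hi; rw [h]; exact Bool.le_true _
        · rw [fl_ne v σ i hi]
      exact core σ (fl v σ) h1 (hmono hle) hσ.le (by rw [hm]; linarith)

/-- comparison of the iterates on the half `0 ≤ mag` -/
lemma it_cmp (w w' : (V → Bool) → ℝ) (hw : ∀ σ, 0 < w σ) (hw' : ∀ σ, 0 < w' σ)
    (he : ∀ σ, w (nega σ) = w σ) (he' : ∀ σ, w' (nega σ) = w' σ)
    (hlat' : ∀ a b, w' a * w' b ≤ w' (a ⊓ b) * w' (a ⊔ b))
    (sw : SF w) (sw' : SF w')
    (hr : ∀ (v : V) (σ : V → Bool), σ v = true → 1 ≤ mag σ →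
      w σ * w' (fl v σ) ≤ w' σ * w (fl v σ)) (m : ℕ) :
    ∀ σ, 0 ≤ mag σ → 0 ≤ (AA w)^[m] mag σ ∧ (AA w)^[m] mag σ ≤ (AA w')^[m] mag σ := by
  have hmonomag : Monotone (mag (V := V)) := by
    intro σ τ h
    exact sum_le_sum fun v _ => sp_mono (h v)
  induction m with
  | zero => intro σ h; exact ⟨h, le_refl _⟩
  | succ m ih =>
    intro σ h
    have o1 := it_odd w mag he (mag_odd (V := V)) (m + 1)
    have o2 := it_odd w' mag he' (mag_odd (V := V)) (m + 1)
    have s1 := SF_it w mag sw SF_mag (m + 1)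
    have s2 := SF_it w' mag sw' SF_mag (m + 1)
    rcases eq_or_lt_of_le h with h0 | h0
    · have e : mag (nega σ) = mag σ := by rw [mag_nega, ← h0]; simp
      have z1 : (AA w)^[m + 1] mag σ = 0 := by
        have h5 := o1 σ
        rw [s1 _ _ e] at h5
        linarith
      have z2 : (AA w')^[m + 1] mag σ = 0 := by
        have h5 := o2 σ
        rw [s2 _ _ e] at h5
        linarith
      rw [z1, z2]
      exact ⟨le_refl _, le_refl _⟩
    · rw [Function.iterate_succ_apply', Function.iterate_succ_apply']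
      have key := fun v => EE_cmp w w' ((AA w)^[m] mag) ((AA w')^[m] mag) hw hw' he he' sw sw'
        (SF_it w mag sw SF_mag m) (SF_it w' mag sw' SF_mag m) (it_odd w mag he mag_odd m)
        (it_odd w' mag he' mag_odd m) hr (it_mono w' _ hw' hlat' hmonomag m) ih v σ h0
      exact ⟨sum_nonneg fun v _ => (key v).1, sum_le_sum fun v _ => (key v).2⟩

/-- **Comparison of exchangeable attractive dynamics**: stronger attraction, smaller gap. -/
theorem OB_exch [Nonempty V] (w w' : (V → Bool) → ℝ) (hw : ∀ σ, 0 < w σ) (hw' : ∀ σ, 0 < w' σ)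
    (he : ∀ σ, w (nega σ) = w σ) (he' : ∀ σ, w' (nega σ) = w' σ)
    (hlat : ∀ a b, w a * w b ≤ w (a ⊓ b) * w (a ⊔ b))
    (hlat' : ∀ a b, w' a * w' b ≤ w' (a ⊓ b) * w' (a ⊔ b))
    (sw : SF w) (sw' : SF w')
    (hr : ∀ (v : V) (σ : V → Bool), σ v = true → 1 ≤ mag σ →
      w σ * w' (fl v σ) ≤ w' σ * w (fl v σ)) {c : ℝ} (h : OB w' c) : OB w c := by
  obtain ⟨hθ, hit⟩ := it_bound w' hw' he' c h
  set K : ℝ := ∑ σ, w σ / w' σ with hKdef
  have hKσ : ∀ σ, w σ ≤ K * w' σ := by
    intro σ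
    have h1 : w σ / w' σ ≤ K :=
      single_le_sum (f := fun σ => w σ / w' σ) (fun τ _ => (div_pos (hw τ) (hw' τ)).le)
        (mem_univ σ)
    rwa [div_le_iff₀ (hw' σ)] at h1
  have hK0 : 0 ≤ K := sum_nonneg fun τ _ => (div_pos (hw τ) (hw' τ)).le
  refine OB_of_mag w hw he hlat c (K * ip w' mag mag) hθ fun m => ?_
  have hsq : ∀ σ, ((AA w)^[m] mag σ) ^ 2 ≤ ((AA w')^[m] mag σ) ^ 2 := by
    intro σ
    rcases le_total 0 (mag σ) with h0 | h0
    · obtain ⟨h1, h2⟩ := it_cmp w w' hw hw' he he' hlat' sw sw' hr m σ h0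
      exact pow_le_pow_left₀ h1 h2 2
    · obtain ⟨h1, h2⟩ := it_cmp w w' hw hw' he he' hlat' sw sw' hr m (nega σ)
        (by rw [mag_nega]; linarith)
      have o1 := it_odd w mag he (mag_odd (V := V)) m σ
      have o2 := it_odd w' mag he' (mag_odd (V := V)) m σ
      rw [o1] at h1 h2
      rw [o2] at h2
      nlinarith
  calc ip w ((AA w)^[m] mag) ((AA w)^[m] mag)
      = ∑ σ, w σ * ((AA w)^[m] mag σ) ^ 2 := by
        unfold ip; exact sum_congr rfl fun σ _ => by ring
    _ ≤ ∑ σ, (K * w' σ) * ((AA w')^[m] mag σ) ^ 2 := by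
        refine sum_le_sum fun σ _ => ?_
        exact mul_le_mul (hKσ σ) (hsq σ) (sq_nonneg _) (mul_nonneg hK0 (hw' σ).le)
    _ = K * ip w' ((AA w')^[m] mag) ((AA w')^[m] mag) := by
        unfold ip; rw [mul_sum]; exact sum_congr rfl fun σ _ => by ring
    _ ≤ K * ((((Fintype.card V : ℝ) - c / 2) ^ 2) ^ m * ip w' mag mag) :=
        mul_le_mul_of_nonneg_left (hit mag mag_odd m) hK0
    _ = _ := by ring

end Pool.Agent.H178R2.PG
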