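import Pool.Agent.H178R2.PG.Full

set_option autoImplicit false

namespace Pool.Agent.H178R2.PG

open Finset

variable {V : Type} [Fintype V] [DecidableEq V]

/-- spin value -/
def sp (b : Bool) : ℝ := if b then 1 else -1

lemma sp_not (b : Bool) : sp (!b) = - sp b := by cases b <;> simp [sp]

lemma sp_mono {a b : Bool} (h : a ≤ b) : sp a ≤ sp b := by
  revert h
  cases a <;> cases b
  · intro _; exact le_refl _
  · intro _; norm_num [sp]
  · intro h; exact absurd h (by decide)
  · intro _; exact le_refl _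

/-- magnetization -/
noncomputable def mag (σ : V → Bool) : ℝ := ∑ v, sp (σ v)

omit [DecidableEq V] in
lemma mag_odd : IsOdd (mag (V := V)) := by
  intro σ
  unfold mag nega
  rw [← sum_neg_distrib]
  exact sum_congr rfl fun v _ => sp_not _

lemma aux_bool {a b : Bool} (h : a ≤ b) (hne : a ≠ b) : a = false ∧ b = true := by
  revert h hne
  cases a <;> cases b <;> decide

omit [DecidableEq V] in
lemma mag_gap {σ τ : V → Bool} (h : σ ≤ τ) (hne : σ ≠ τ) : mag σ + 2 ≤ mag τ := by
  obtain ⟨v, hv⟩ : ∃ v, σ v ≠ τ v := by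
    by_contra hcon
    push Not at hcon
    exact hne (funext hcon)
  have h1 : σ v = false ∧ τ v = true := by
    exact aux_bool (h v) hv
  have : ∑ u, (sp (τ u) - sp (σ u)) ≥ sp (τ v) - sp (σ v) :=
    single_le_sum (f := fun u => sp (τ u) - sp (σ u))
      (fun u _ => sub_nonneg.mpr (sp_mono (h u))) (mem_univ v)
  rw [sum_sub_distrib] at this
  unfold mag
  have e : sp (τ v) - sp (σ v) = 2 := by rw [h1.1, h1.2]; norm_num [sp]
  linarith

lemma AA_add (w f g : (V → Bool) → ℝ) : AA w (f + g) = AA w f + AA w g := by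
  funext σ
  simp only [AA, EE, Pi.add_apply]
  rw [← sum_add_distrib]
  exact sum_congr rfl fun v _ => by ring

lemma AA_sub (w f g : (V → Bool) → ℝ) : AA w (f - g) = AA w f - AA w g := by
  funext σ
  simp only [AA, EE, Pi.sub_apply]
  rw [← sum_sub_distrib]
  exact sum_congr rfl fun v _ => by ring

lemma it_add (w f g : (V → Bool) → ℝ) (m : ℕ) :
    (AA w)^[m] (f + g) = (AA w)^[m] f + (AA w)^[m] g := by
  induction m with
  | zero => rfl
  | succ m ih => rw [Function.iterate_succ_apply', ih, AA_add, Function.iterate_succ_apply',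
      Function.iterate_succ_apply']

lemma it_sub (w f g : (V → Bool) → ℝ) (m : ℕ) :
    (AA w)^[m] (f - g) = (AA w)^[m] f - (AA w)^[m] g := by
  induction m with
  | zero => rfl
  | succ m ih => rw [Function.iterate_succ_apply', ih, AA_sub, Function.iterate_succ_apply',
      Function.iterate_succ_apply']

lemma AA_odd (w f : (V → Bool) → ℝ) (he : ∀ σ, w (nega σ) = w σ) (hf : IsOdd f) :
    IsOdd (AA w f) := by
  intro σ
  unfold AA
  rw [← sum_neg_distrib]
  refine sum_congr rfl fun v _ => ?_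
  unfold EE
  rw [fl_nega, he, he, hf, hf]
  ring

lemma it_odd (w f : (V → Bool) → ℝ) (he : ∀ σ, w (nega σ) = w σ) (hf : IsOdd f) (m : ℕ) :
    IsOdd ((AA w)^[m] f) := by
  induction m with
  | zero => exact hf
  | succ m ih => rw [Function.iterate_succ_apply']; exact AA_odd w _ he ih

lemma it_mono (w f : (V → Bool) → ℝ) (hw : ∀ σ, 0 < w σ)
    (hlat : ∀ a b, w a * w b ≤ w (a ⊓ b) * w (a ⊔ b)) (hf : Monotone f) (m : ℕ) :
    Monotone ((AA w)^[m] f) := by
  induction m with
  | zero => exact hf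
  | succ m ih => rw [Function.iterate_succ_apply']; exact AA_mono w _ hw hlat ih

lemma it_tot (w f : (V → Bool) → ℝ) (hw : ∀ σ, 0 < w σ) (hf : tot w f = 0) (m : ℕ) :
    tot w ((AA w)^[m] f) = 0 := by
  induction m with
  | zero => exact hf
  | succ m ih => rw [Function.iterate_succ_apply', tot_AA w _ hw, ih, mul_zero]

lemma it_symm (w f g : (V → Bool) → ℝ) (hw : ∀ σ, 0 < w σ) (m : ℕ) :
    ip w ((AA w)^[m] f) g = ip w f ((AA w)^[m] g) := by
  induction m generalizing f g with
  | zero => rfl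
  | succ m ih =>
    rw [Function.iterate_succ_apply', ip_AA_symm w _ g hw, ih, Function.iterate_succ_apply]

lemma ip_add_sub (w f g : (V → Bool) → ℝ) :
    ip w (f + g) (f - g) = ip w f f - ip w g g := by
  unfold ip
  rw [← sum_sub_distrib]
  refine sum_congr rfl fun σ _ => ?_
  simp only [Pi.add_apply, Pi.sub_apply]; ring

/-- **The slowest mode of an attractive spin-flip symmetric heat bath dynamics is odd.** -/
theorem full_of_odd [Nonempty V] (w : (V → Bool) → ℝ) (hw : ∀ σ, 0 < w σ)
    (he : ∀ σ, w (nega σ) = w σ)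
    (hlat : ∀ a b, w a * w b ≤ w (a ⊓ b) * w (a ⊔ b)) (c : ℝ) (h : OB w c)
    (g : (V → Bool) → ℝ) (hg : tot w g = 0) : c * DD w g ≤ NN w g := by
  classical
  set θ : ℝ := (Fintype.card V : ℝ) - c / 2 with hθ
  have hodd : ∀ f, IsOdd f → ip w (AA w f) f ≤ θ * ip w f f := by
    intro f hf
    have := h f hf
    rw [NN_eq w f hw, DD_eq_ip] at this
    rw [hθ]; linarith
  -- the reduction
  suffices H : ip w (AA w g) g ≤ θ * ip w g g by
    rw [NN_eq w g hw, DD_eq_ip]
    rw [hθ] at H; linarith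
  have hθ0 : 0 ≤ θ := by
    have h1 := hodd _ (mag_odd (V := V))
    have h2 := ip_AA_nonneg w (mag (V := V)) hw
    have h3 : 0 < ip w (mag (V := V)) mag := by
      unfold ip
      refine sum_pos' (fun σ _ => ?_) ⟨fun _ => true, mem_univ _, ?_⟩
      · have := mul_nonneg (hw σ).le (mul_self_nonneg (mag σ)); linarith
      · have : (0 : ℝ) < mag (V := V) (fun _ => true) := by
          unfold mag sp; simp [Fintype.card_pos]
        have := hw (fun _ => true)
        positivity
    by_contra hneg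
    push Not at hneg
    nlinarith
  -- norm bound on odd functions
  have hnorm : ∀ f, IsOdd f → ip w (AA w f) (AA w f) ≤ θ ^ 2 * ip w f f := by
    intro f hf
    have h1 := ip_AA_cs w f (AA w f) hw
    have h2 := hodd f hf
    have h3 := hodd _ (AA_odd w f he hf)
    have h4 := ip_self_nonneg w (AA w f) hw
    have h5 := ip_self_nonneg w f hw
    have h6 := ip_AA_nonneg w f hw
    have h7 := ip_AA_nonneg w (AA w f) hw
    have h8 : ip w (AA w f) f * ip w (AA w (AA w f)) (AA w f)
        ≤ (θ * ip w f f) * (θ * ip w (AA w f) (AA w f)) :=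
      mul_le_mul h2 h3 h7 (by positivity)
    rcases eq_or_lt_of_le h4 with h0 | h0
    · rw [← h0]; positivity
    · have h9 : ip w (AA w f) (AA w f) * ip w (AA w f) (AA w f)
          ≤ (θ ^ 2 * ip w f f) * ip w (AA w f) (AA w f) := by nlinarith
      exact le_of_mul_le_mul_right h9 h0
  -- the dominating increasing odd function
  set G : ℝ := ∑ σ, |g σ| with hG
  have hGb : ∀ σ, |g σ| ≤ G := fun σ =>
    single_le_sum (f := fun σ => |g σ|) (fun τ _ => abs_nonneg _) (mem_univ σ)
  have hG0 : 0 ≤ G := sum_nonneg fun _ _ => abs_nonneg _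
  set φ : (V → Bool) → ℝ := fun σ => G * mag σ with hφ
  have hφodd : IsOdd φ := by
    intro σ; simp only [hφ]; rw [mag_odd]; ring
  have hφt : tot w φ = 0 := by
    have h1 : tot w φ = ∑ σ, w (nega σ) * φ (nega σ) :=
      (sum_nega (fun σ => w σ * φ σ)).symm
    have h2 : tot w φ = - tot w φ := by
      nth_rewrite 1 [h1]
      unfold tot
      rw [← sum_neg_distrib]
      exact sum_congr rfl fun σ _ => by rw [he, hφodd]; ring
    linarith
  have hm1 : Monotone (φ + g) := by
    intro σ τ hst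
    by_cases hne : σ = τ
    · subst hne; exact le_refl _
    · have h1 := mag_gap hst hne
      have h2 := abs_le.mp (hGb σ)
      have h3 := abs_le.mp (hGb τ)
      simp only [Pi.add_apply, hφ]
      nlinarith [mul_nonneg hG0 (sub_nonneg.mpr h1)]
  have hm2 : Monotone (φ - g) := by
    intro σ τ hst
    by_cases hne : σ = τ
    · subst hne; exact le_refl _
    · have h1 := mag_gap hst hne
      have h2 := abs_le.mp (hGb σ)
      have h3 := abs_le.mp (hGb τ)
      simp only [Pi.sub_apply, hφ]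
      nlinarith [mul_nonneg hG0 (sub_nonneg.mpr h1)]
  have ht1 : tot w (φ + g) = 0 := by
    have : tot w (φ + g) = tot w φ + tot w g := by
      unfold tot; rw [← sum_add_distrib]
      exact sum_congr rfl fun σ _ => by simp only [Pi.add_apply]; ring
    rw [this, hφt, hg, add_zero]
  have hZ : 0 < ∑ σ, w σ := sum_pos (fun σ _ => hw σ) univ_nonempty
  have hdom : ∀ m : ℕ, ip w ((AA w)^[m] g) ((AA w)^[m] g) ≤
      ip w ((AA w)^[m] φ) ((AA w)^[m] φ) := by
    intro m
    have h1 := fkg' w _ _ hw hlat (it_mono w _ hw hlat hm1 m) (it_mono w _ hw hlat hm2 m)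
    rw [it_tot w _ hw ht1 m, zero_mul, it_add, it_sub, ip_add_sub] at h1
    have := (mul_nonneg_iff_of_pos_left hZ).mp h1
    linarith
  have hφit : ∀ m : ℕ, ip w ((AA w)^[m] φ) ((AA w)^[m] φ) ≤ (θ ^ 2) ^ m * ip w φ φ := by
    intro m
    induction m with
    | zero => simp
    | succ m ih =>
      rw [Function.iterate_succ_apply']
      have h1 := hnorm _ (it_odd w φ he hφodd m)
      calc _ ≤ θ ^ 2 * ip w ((AA w)^[m] φ) ((AA w)^[m] φ) := h1
        _ ≤ θ ^ 2 * ((θ ^ 2) ^ m * ip w φ φ) := mul_le_mul_of_nonneg_left ih (sq_nonneg _)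
        _ = _ := by ring
  -- now the doubling argument
  have hy0 := ip_self_nonneg w g hw
  rcases eq_or_lt_of_le hy0 with hy | hy
  · have h1 := ip_cs w (AA w g) g hw
    rw [← hy, mul_zero] at h1
    have h2 : ip w (AA w g) g = 0 := by nlinarith [sq_nonneg (ip w (AA w g) g)]
    rw [h2, ← hy]; simp
  have hdbl : ∀ k : ℕ, (ip w ((AA w)^[k] g) ((AA w)^[k] g)) ^ 2 ≤
      ip w g g * ip w ((AA w)^[2 * k] g) ((AA w)^[2 * k] g) := by
    intro k
    have h1 : ip w ((AA w)^[k] g) ((AA w)^[k] g) = ip w g ((AA w)^[2 * k] g) := by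
      rw [it_symm w g _ hw k, ← Function.iterate_add_apply, two_mul]
    rw [h1]
    exact ip_cs w _ _ hw
  set y := ip w g g with hydef
  have hz : ∀ j : ℕ, (ip w (AA w g) (AA w g) / y) ^ (2 ^ j) ≤
      ip w ((AA w)^[2 ^ j] g) ((AA w)^[2 ^ j] g) / y := by
    intro j
    induction j with
    | zero => simp
    | succ j ih =>
      have h1 : (ip w (AA w g) (AA w g) / y) ^ (2 ^ (j + 1)) =
          ((ip w (AA w g) (AA w g) / y) ^ (2 ^ j)) ^ 2 := by
        rw [← pow_mul, pow_succ]
      rw [h1]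
      have h0 : 0 ≤ ip w (AA w g) (AA w g) / y :=
        div_nonneg (ip_self_nonneg w _ hw) hy.le
      calc _ ≤ (ip w ((AA w)^[2 ^ j] g) ((AA w)^[2 ^ j] g) / y) ^ 2 :=
            pow_le_pow_left₀ (pow_nonneg h0 _) ih 2
        _ ≤ _ := by
            rw [div_pow, div_le_div_iff₀ (by positivity) hy]
            have := hdbl (2 ^ j)
            rw [← pow_succ'] at this
            nlinarith
  have hfin : ip w (AA w g) (AA w g) / y ≤ θ ^ 2 := by
    by_contra hcon
    push Not at hcon
    set z := ip w (AA w g) (AA w g) / y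
    set B := ip w φ φ / y
    have hb : ∀ j : ℕ, z ^ (2 ^ j) ≤ B * (θ ^ 2) ^ (2 ^ j) := by
      intro j
      calc _ ≤ ip w ((AA w)^[2 ^ j] g) ((AA w)^[2 ^ j] g) / y := hz j
        _ ≤ ((θ ^ 2) ^ (2 ^ j) * ip w φ φ) / y :=
            div_le_div_of_nonneg_right ((hdom _).trans (hφit _)) hy.le
        _ = _ := by simp only [B]; ring
    have hz0 : 0 < z := lt_of_le_of_lt (sq_nonneg θ) hcon
    rcases eq_or_lt_of_le (sq_nonneg θ) with h0 | h0
    · have := hb 0
      rw [← h0] at this
      simp at this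
      linarith
    · have hq : 1 < z / θ ^ 2 := by rwa [one_lt_div h0]
      obtain ⟨j, hj⟩ := pow_unbounded_of_one_lt B hq
      have h1 : (z / θ ^ 2) ^ j ≤ (z / θ ^ 2) ^ (2 ^ j) :=
        pow_le_pow_right₀ hq.le (Nat.lt_two_pow_self).le
      have h2 : (z / θ ^ 2) ^ (2 ^ j) ≤ B := by
        rw [div_pow, div_le_iff₀ (by positivity)]
        exact hb j
      linarith
  have hA : ip w (AA w g) (AA w g) ≤ θ ^ 2 * y := by
    rwa [div_le_iff₀ hy] at hfin
  have h1 := ip_cs w (AA w g) g hw
  by_contra hcon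
  push Not at hcon
  have h2 : 0 ≤ θ * y := by positivity
  have h3 : (θ * y) ^ 2 < (ip w (AA w g) g) ^ 2 := by
    apply pow_lt_pow_left₀ hcon h2 (by norm_num)
  nlinarith

end Pool.Agent.H178R2.PG
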